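import Pool.Agent.helper67.TPC.Spec

/-!
# Project tpc: (MP_ebc808_nt), module IDB: the identity
-/

set_option autoImplicit false

open Finset PowerSeries

noncomputable section

namespace Pool.Agent.TPC

open Pool.Agent.EP

theorem IDB_mod {d : ℕ} (hd : Nat.Coprime d 6) : d % 2 = 1 ∧ d % 3 ≠ 0 := by
  refine ⟨?_, ?_⟩
  · by_contra h
    have h2 : 2 ∣ d := by omega
    have h3 : 2 ∣ Nat.gcd d 6 := Nat.dvd_gcd h2 (by norm_num)
    rw [Nat.Coprime] at hd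
    rw [hd] at h3
    omega
  · intro h
    have h2 : 3 ∣ d := by omega
    have h3 : 3 ∣ Nat.gcd d 6 := Nat.dvd_gcd h2 (by norm_num)
    rw [Nat.Coprime] at hd
    rw [hd] at h3
    omega

theorem IDB_cop {d : ℕ} (h2 : d % 2 = 1) (h3 : d % 3 ≠ 0) : Nat.Coprime d 6 := by
  have h8 : Nat.Coprime d 2 :=
    ((Nat.Prime.coprime_iff_not_dvd Nat.prime_two).2 (by omega)).symm
  have h9 : Nat.Coprime d 3 :=
    ((Nat.Prime.coprime_iff_not_dvd Nat.prime_three).2 (by omega)).symm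
  exact Nat.Coprime.mul_right h8 h9

theorem IDB_sq {d : ℕ} (hd : Nat.Coprime d 6) : d ^ 2 % 3 = 1 := by
  obtain ⟨_, h3⟩ := IDB_mod hd
  rw [Nat.pow_mod]
  have h6 : d % 3 < 3 := Nat.mod_lt _ (by norm_num)
  generalize d % 3 = r at h3 h6
  interval_cases r <;> simp_all

/-- Division by `vvx^b`. -/
theorem IDB_shift (hWM : WM_stmt) (b c : ℕ) (f : KK) (hf : f ∈ WC (b + 1) c) :
    f * vvx ^ b ∈ WW := by
  have hw : ww * vvx = 1 := hWM.2
  unfold WC at hf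
  induction hf using Submodule.span_induction with
  | mem x hx =>
    obtain ⟨j, hj, _, rfl⟩ := hx
    obtain ⟨i, rfl⟩ : ∃ i, j = i + 1 + b := ⟨j - b - 1, by omega⟩
    have h1 : ww ^ (i + 1 + b) * vvx ^ b = ww ^ (i + 1) := by
      rw [pow_add ww (i + 1) b, mul_assoc, ← mul_pow, hw, one_pow, mul_one]
    rw [h1]
    exact Submodule.subset_span ⟨i + 1, by omega, rfl⟩
  | zero => rw [zero_mul]; exact Submodule.zero_mem _
  | add x y _ _ hx hy => rw [add_mul]; exact Submodule.add_mem _ hx hy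
  | smul a x _ hx => rw [smul_mul_assoc]; exact Submodule.smul_mem _ _ hx

theorem IDB_u {s k u : ℕ} (hs : 1 ≤ s) (hk : k.Coprime 6) (h3 : (k + 2 ^ (s + 1)) % 3 ≠ 0)
    (hu : u ∈ uB s k) : 2 ^ s * u ^ 2 < k ∧ Nat.Coprime (k - 2 ^ s * u ^ 2) 6 ∧
      ((k - 2 ^ s * u ^ 2 : ℕ) : ℤ) = k - 2 ^ s * (u : ℤ) ^ 2 := by
  obtain ⟨-, hc, hle⟩ := Finset.mem_filter.1 hu
  have hsq := IDB_sq hc
  obtain ⟨hk2, _⟩ := IDB_mod hk
  have hP3 : (2 ^ s * u ^ 2) % 3 = 2 ^ s % 3 := by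
    rw [Nat.mul_mod, hsq, mul_one, Nat.mod_mod]
  have hP2 : (2 ^ s * u ^ 2) % 2 = 0 := by
    obtain ⟨t, rfl⟩ : ∃ t, s = t + 1 := ⟨s - 1, by omega⟩
    rw [pow_succ, mul_assoc, mul_left_comm]
    omega
  have hS : 2 ^ (s + 1) = 2 * 2 ^ s := by ring
  rw [hS] at h3
  have hlt : 2 ^ s * u ^ 2 < k := by
    rcases hle.lt_or_eq with h | h
    · exact h
    · omega
  refine ⟨hlt, IDB_cop (by omega) (by omega), ?_⟩
  rw [Nat.cast_sub hlt.le]
  push_cast
  ring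

/-- **IDB**. The identity. -/
theorem IDB (hVB : VB_stmt) (hJW : JW_stmt) (hJN : JN_stmt) (hNEG : NEG_stmt) (hWM : WM_stmt) :
    IDB_stmt := by
  classical
  intro s n hs hnc hn3 hfil
  obtain ⟨f, hfW, hf⟩ := hfil
  have hn0 : 0 < n := by
    rcases Nat.eq_zero_or_pos n with h | h
    · subst h; exact absurd hnc (by decide)
    · exact h
  have hf0 : ∀ N : ℤ, N < -(n : ℤ) → f.coeff N = 0 := by
    intro N hN
    rw [hf N, hJN n N hn0 (by omega), if_neg (by omega)]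
  have hgW : f * vvx ^ (2 ^ s) ∈ WW := IDB_shift hWM (2 ^ s) n f hfW
  have hex : ∀ u : ℕ, ∃ q : KK, u ∈ uB s n →
      q ∈ WW ∧ ∀ M : ℤ, q.coeff M = JG ac (n - 2 ^ s * u ^ 2) M := by
    intro u
    by_cases hu : u ∈ uB s n
    · obtain ⟨h1, h2, -⟩ := IDB_u hs hnc hn3 hu
      obtain ⟨q, hq, hq'⟩ := hJW _ (by omega) h2
      exact ⟨q, fun _ => ⟨hq, hq'⟩⟩
    · exact ⟨0, fun h => absurd h hu⟩
  choose q hq using hex
  set F : KK := f * vvx ^ (2 ^ s) + ∑ u ∈ uB s n, q u with hF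
  have hFW : F ∈ WW :=
    Submodule.add_mem _ hgW (Submodule.sum_mem _ fun u hu => (hq u hu).1)
  have hgc : ∀ M : ℤ, (f * vvx ^ (2 ^ s)).coeff M =
      ∑ u ∈ uB s (M + n).toNat, JG ac n (M - 2 ^ s * (u : ℤ) ^ 2) := by
    intro M
    rw [hVB s n f hf0 M]
    exact Finset.sum_congr rfl fun u _ => hf _
  have hFc : ∀ M : ℤ, F.coeff M = (f * vvx ^ (2 ^ s)).coeff M +
      ∑ u ∈ uB s n, JG ac (n - 2 ^ s * u ^ 2) M := by
    intro M
    rw [hF, HahnSeries.coeff_add, HahnSeries.coeff_sum]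
    congr 1
    exact Finset.sum_congr rfl fun u hu => (hq u hu).2 M
  have hneg : ∀ M : ℤ, M < 0 → F.coeff M = 0 := by
    intro M hM
    rw [hFc, hgc]
    have e1 : ∑ u ∈ uB s (M + n).toNat, JG ac n (M - 2 ^ s * (u : ℤ) ^ 2) =
        ∑ u ∈ uB s (M + n).toNat,
          if 2 ^ s * (u : ℤ) ^ 2 = M + n then (1 : ZMod 2) else 0 := by
      refine Finset.sum_congr rfl fun u _ => ?_
      have hsq : 0 ≤ 2 ^ s * (u : ℤ) ^ 2 := by positivity
      rw [hJN n _ hn0 (by omega)]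
      have hiff : (M - 2 ^ s * (u : ℤ) ^ 2 = -(n : ℤ)) ↔ 2 ^ s * (u : ℤ) ^ 2 = M + n := by
        constructor <;> intro h <;> linarith
      simp only [hiff]
    have e2 : ∑ u ∈ uB s n, JG ac (n - 2 ^ s * u ^ 2) M =
        ∑ u ∈ uB s n, if 2 ^ s * (u : ℤ) ^ 2 = M + n then (1 : ZMod 2) else 0 := by
      refine Finset.sum_congr rfl fun u hu => ?_
      obtain ⟨h1, -, h3⟩ := IDB_u hs hnc hn3 hu
      rw [hJN _ M (by omega) hM, h3]
      have hiff : (M = -((n : ℤ) - 2 ^ s * (u : ℤ) ^ 2)) ↔ 2 ^ s * (u : ℤ) ^ 2 = M + n := by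
        constructor <;> intro h <;> linarith
      simp only [hiff]
    have e3 : (uB s (M + n).toNat).filter (fun u : ℕ => 2 ^ s * (u : ℤ) ^ 2 = M + n) =
        (uB s n).filter (fun u : ℕ => 2 ^ s * (u : ℤ) ^ 2 = M + n) := by
      ext u
      simp only [uB, Finset.mem_filter, Finset.mem_range]
      constructor
      · rintro ⟨⟨h1, h2, h3⟩, h4⟩
        have h5 : 2 ^ s * u ^ 2 ≤ n := by
          have : ((2 ^ s * u ^ 2 : ℕ) : ℤ) ≤ n := by push_cast; omega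
          exact_mod_cast this
        exact ⟨⟨by omega, h2, h5⟩, h4⟩
      · rintro ⟨⟨h1, h2, h3⟩, h4⟩
        have h5 : 2 ^ s * u ^ 2 = (M + n).toNat := by
          have : ((2 ^ s * u ^ 2 : ℕ) : ℤ) = M + n := by push_cast; exact h4
          omega
        refine ⟨⟨?_, h2, h5.le⟩, h4⟩
        rw [← h5]
        have h6 : 1 ≤ 2 ^ s := Nat.one_le_two_pow
        nlinarith [Nat.zero_le u]
    rw [e1, e2, ← Finset.sum_filter, ← Finset.sum_filter, e3]
    exact CharTwo.add_self_eq_zero _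
  have hF0 : F = 0 := hNEG F hFW hneg
  intro M
  have h1 := hFc M
  rw [hF0, HahnSeries.coeff_zero, hgc] at h1
  exact h1.symm

end Pool.Agent.TPC
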